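import Mathlib
import Pool.Agent.Q177.FreeVecB

/-!
# MP_723ccc_gt: countable tightness of `sp₂(X)` and `sp₄(X)`
-/

set_option autoImplicit false

universe u

namespace Pool.Agent.Results.MP_723ccc_gt.TightLevels

open Set Topology

/-- The topology of the free topological vector space `V(X)`, whose underlying vector space is the
space `X →₀ ℝ` of finitely supported functions (formal linear combinations of points of `X`): the
finest vector space topology for which the map `x ↦ x` of `X` into it is continuous. -/
@[reducible]
def freeVectorTopology (X : Type u) [τ : TopologicalSpace X] : TopologicalSpace (X →₀ ℝ) :=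
  sInf {t | @IsTopologicalAddGroup (X →₀ ℝ) t _ ∧ @ContinuousSMul ℝ (X →₀ ℝ) _ _ t ∧
    @Continuous X (X →₀ ℝ) τ t (fun x : X => Finsupp.single x (1 : ℝ))}

/-- The set `spₙ(X)` of all `λ₁x₁ + ⋯ + λₙxₙ` with `λⱼ ∈ [-n, n]` and `xⱼ ∈ X`. -/
def Sp (X : Type u) (n : ℕ) : Type u :=
  {v : X →₀ ℝ // ∃ (c : Fin n → ℝ) (x : Fin n → X), (∀ j, c j ∈ Icc (-(n : ℝ)) n) ∧
    v = ∑ j, Finsupp.single (x j) (c j)}

/-- `spₙ(X)` carries the subspace topology of `V(X)`. -/
instance (X : Type u) [TopologicalSpace X] (n : ℕ) : TopologicalSpace (Sp X n) :=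
  (freeVectorTopology X).induced Subtype.val

/-- `Z` has countable tightness: every point in the closure of a set `A` lies in the closure of a
countable subset of `A`. -/
def CountablyTight (Z : Type u) [TopologicalSpace Z] : Prop :=
  ∀ A : Set Z, ∀ z ∈ closure A, ∃ B ⊆ A, B.Countable ∧ z ∈ closure B

/-- If `X` is metrizable and `sp₂(X)` has countable tightness, then `X` is separable and `spₙ(X)`
has countable tightness for every `n`, in particular `sp₄(X)` has countable tightness. -/
theorem result (X : Type u) [TopologicalSpace X] [TopologicalSpace.MetrizableSpace X]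
    (hX : CountablyTight (Sp X 2)) :
    TopologicalSpace.SeparableSpace X ∧ ∀ n : ℕ, CountablyTight (Sp X n) := by
  refine ⟨?_, fun n => @Q177.FreeVec.tight_all X _ _ (freeVectorTopology X)
    (Q177.FreeVec.isFreeVec_vecTop X) 2 le_rfl hX n⟩
  let _ := TopologicalSpace.metrizableSpaceMetric X
  exact @Q177.FreeVec.separable_of_tight X _ (freeVectorTopology X)
    (Q177.FreeVec.isFreeVec_vecTop X) 2 le_rfl hX

end Pool.Agent.Results.MP_723ccc_gt.TightLevels
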